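import Pool.Agent.H336R3.HeisGroup

set_option autoImplicit false

/-!
# A non-closed subgroup of a Lie group in which every closed zero-dimensional metrizable subgroup
is discrete

Negative answer to Q1 of MP_3a9d0e_gt. The Lie group is the Heisenberg group, the subgroup is the
preimage of a dense subgroup `D` of rank three of the plane which meets every line through the
origin in a cyclic group.
-/

namespace Pool.Agent.Results.MP_3a9d0e_gt.HeisenbergPreimage

open Topology Filter
open Pool.Agent.H336R3.ZM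
open Pool.Agent.H336R3.ZM.Heis

/-- `X` has a base of sets that are both open and closed. -/
def ZeroDim (X : Type) [TopologicalSpace X] : Prop :=
  TopologicalSpace.IsTopologicalBasis {s : Set X | IsClopen s}

/-- Property `Z_m`: every closed zero-dimensional metrizable subgroup of `G` is discrete. -/
def Zm (G : Type) [Group G] [TopologicalSpace G] : Prop :=
  ∀ N : Subgroup G, IsClosed (N : Set G) → ZeroDim N → TopologicalSpace.MetrizableSpace N →
    DiscreteTopology N

/-- linear independence of `1, √2, √3` over the rationals -/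
theorem indep (a b c : ℤ) (h : (a : ℝ) + b * √2 + c * √3 = 0) : a = 0 ∧ b = 0 ∧ c = 0 := by
  have h2 : √2 * √2 = (2 : ℝ) := Real.mul_self_sqrt (by norm_num)
  have h3 : √3 * √3 = (3 : ℝ) := Real.mul_self_sqrt (by norm_num)
  have h23 : √2 * √3 = √6 := by
    rw [← Real.sqrt_mul (by norm_num)]; norm_num
  have i2 : Irrational √2 := irrational_sqrt_two
  have i3 : Irrational √3 := Nat.Prime.irrational_sqrt (by norm_num : Nat.Prime 3)
  have i6 : Irrational √6 := by norm_num
  have e1 : (a : ℝ) ^ 2 + 2 * b ^ 2 + 2 * a * b * √2 = 3 * c ^ 2 := by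
    have : (a : ℝ) + b * √2 = - (c * √3) := by linarith
    have h4 : ((a : ℝ) + b * √2) ^ 2 = (- (c * √3)) ^ 2 := by rw [this]
    nlinarith [h4]
  have hab : (a : ℤ) * b = 0 := by
    by_contra hne
    have hne' : (2 * a * b : ℝ) ≠ 0 := by
      have : ((a * b : ℤ) : ℝ) ≠ 0 := by exact_mod_cast hne
      push_cast at this
      intro h; apply this; linarith
    apply i2
    refine ⟨((3 * c ^ 2 - a ^ 2 - 2 * b ^ 2 : ℤ) : ℚ) / ((2 * a * b : ℤ) : ℚ), ?_⟩
    push_cast
    rw [div_eq_iff hne']
    linarith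
  rcases mul_eq_zero.1 hab with ha | hb
  · subst ha
    by_cases hc : c = 0
    · subst hc
      have : (b : ℝ) * √2 = 0 := by simpa using h
      rcases mul_eq_zero.1 this with hb | hb
      · exact ⟨rfl, by exact_mod_cast hb, rfl⟩
      · exfalso
        rw [hb] at h2; norm_num at h2
    · exfalso
      have hc' : (c : ℝ) ≠ 0 := by exact_mod_cast hc
      apply i6
      refine ⟨((-2 * b : ℤ) : ℚ) / ((c : ℤ) : ℚ), ?_⟩
      push_cast
      rw [div_eq_iff hc', ← h23]
      have h5 : (b : ℝ) * √2 + c * √3 = 0 := by simpa using h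
      linear_combination (-√2) * h5 + b * h2
  · subst hb
    by_cases hc : c = 0
    · subst hc
      have : (a : ℝ) = 0 := by simpa using h
      exact ⟨by exact_mod_cast this, rfl, rfl⟩
    · exfalso
      have hc' : (c : ℝ) ≠ 0 := by exact_mod_cast hc
      apply i3
      refine ⟨((-a : ℤ) : ℚ) / ((c : ℤ) : ℚ), ?_⟩
      push_cast
      rw [div_eq_iff hc']
      have h5 : (a : ℝ) + c * √3 = 0 := by simpa using h
      linarith

/-- the subgroup `D` of the plane generated by `(1, 0)`, `(0, 1)` and `(√2, √3)` -/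
def InD (a b : ℝ) : Prop := ∃ i j k : ℤ, a = i + k * √2 ∧ b = j + k * √3

theorem InD.add {a b a' b' : ℝ} (h : InD a b) (h' : InD a' b') : InD (a + a') (b + b') := by
  obtain ⟨i, j, k, h1, h2⟩ := h
  obtain ⟨i', j', k', h1', h2'⟩ := h'
  exact ⟨i + i', j + j', k + k', by rw [h1, h1']; push_cast; ring, by rw [h2, h2']; push_cast; ring⟩

theorem InD.neg {a b : ℝ} (h : InD a b) : InD (-a) (-b) := by
  obtain ⟨i, j, k, h1, h2⟩ := h
  exact ⟨-i, -j, -k, by rw [h1]; push_cast; ring, by rw [h2]; push_cast; ring⟩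

/-- the preimage of `D` in the Heisenberg group -/
def GG : Subgroup Heis where
  carrier := {p | InD p.x p.y}
  mul_mem' := fun {p q} hp hq => InD.add hp hq
  one_mem' := ⟨0, 0, 0, by simp, by simp⟩
  inv_mem' := fun {p} hp => InD.neg hp

/-- two elements of `D` with vanishing determinant have proportional integer coordinates -/
theorem det_zero {i j k i' j' k' : ℤ}
    (h : ((i : ℝ) + k * √2) * (j' + k' * √3) - (i' + k' * √2) * (j + k * √3) = 0) :
    i * j' = i' * j ∧ i * k' = i' * k ∧ k * j' = k' * j := by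
  have h1 : (((i * j' - i' * j : ℤ)) : ℝ) + ((k * j' - k' * j : ℤ)) * √2 +
      ((i * k' - i' * k : ℤ)) * √3 = 0 := by
    push_cast
    linarith
  obtain ⟨h2, h3, h4⟩ := indep _ _ _ h1
  exact ⟨by linarith, by linarith, by linarith⟩

theorem comm_mem {N : Subgroup Heis} {p q : Heis} (hp : p ∈ N) (hq : q ∈ N) :
    Heis.mk 0 0 (p.x * q.y - q.x * p.y) ∈ N := by
  have h : p * q * p⁻¹ * q⁻¹ = Heis.mk 0 0 (p.x * q.y - q.x * p.y) := by
    apply Heis.ext
    · simp
    · simp
    · simp; ring
  rw [← h]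
  exact N.mul_mem (N.mul_mem (N.mul_mem hp hq) (N.inv_mem hp)) (N.inv_mem hq)

/-- the projection of a subgroup with cyclic centre part is discrete at the origin -/
theorem core (N : Subgroup Heis) (hD : ∀ p ∈ N, InD p.x p.y) (a : ℝ)
    (hA : ∀ z : ℝ, Heis.mk 0 0 z ∈ N → ∃ k : ℤ, z = k * a) :
    ∃ ε : ℝ, 0 < ε ∧ ∀ p ∈ N, |p.x| + |p.y| < ε → p.x = 0 ∧ p.y = 0 := by
  by_cases hdet : ∀ p ∈ N, ∀ q ∈ N, p.x * q.y - q.x * p.y = 0
  · -- the projection is contained in a line
    by_cases htriv : ∀ p ∈ N, p.x = 0 ∧ p.y = 0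
    · exact ⟨1, one_pos, fun p hp _ => htriv p hp⟩
    push Not at htriv
    obtain ⟨q, hq, hq0⟩ := htriv
    obtain ⟨i', j', k', hqx, hqy⟩ := hD q hq
    have hqpos : 0 < |q.x| + |q.y| := by
      by_cases h : q.x = 0
      · have := abs_pos.2 (hq0 h)
        have := abs_nonneg q.x
        linarith
      · have := abs_pos.2 h
        have := abs_nonneg q.y
        linarith
    -- a nonzero coordinate
    have key : ∃ m' : ℤ, m' ≠ 0 ∧ ∀ p ∈ N, ∃ m : ℤ, (m' : ℝ) * p.x = m * q.x ∧ (m' : ℝ) * p.y = m * q.y := by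
      have hcase : i' ≠ 0 ∨ j' ≠ 0 ∨ k' ≠ 0 := by
        by_contra hcon
        push Not at hcon
        obtain ⟨h1, h2, h3⟩ := hcon
        rw [h1, h3] at hqx
        rw [h2, h3] at hqy
        simp only [Int.cast_zero, zero_mul, add_zero] at hqx hqy
        exact hq0 hqx hqy
      have hrel : ∀ p ∈ N, ∃ i j k : ℤ, p.x = i + k * √2 ∧ p.y = j + k * √3 ∧
          i * j' = i' * j ∧ i * k' = i' * k ∧ k * j' = k' * j := by
        intro p hp
        obtain ⟨i, j, k, hpx, hpy⟩ := hD p hp
        have h := hdet p hp q hq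
        rw [hpx, hpy, hqx, hqy] at h
        exact ⟨i, j, k, hpx, hpy, det_zero h⟩
      rcases hcase with h | h | h
      · refine ⟨i', h, fun p hp => ?_⟩
        obtain ⟨i, j, k, hpx, hpy, h1, h2, h3⟩ := hrel p hp
        have h1' : (i : ℝ) * j' = i' * j := by exact_mod_cast h1
        have h2' : (i : ℝ) * k' = i' * k := by exact_mod_cast h2
        refine ⟨i, ?_, ?_⟩
        · rw [hpx, hqx]; linear_combination (-√2) * h2'
        · rw [hpy, hqy]; linear_combination (-1 : ℝ) * h1' - √3 * h2'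
      · refine ⟨j', h, fun p hp => ?_⟩
        obtain ⟨i, j, k, hpx, hpy, h1, h2, h3⟩ := hrel p hp
        have h1' : (i : ℝ) * j' = i' * j := by exact_mod_cast h1
        have h3' : (k : ℝ) * j' = k' * j := by exact_mod_cast h3
        refine ⟨j, ?_, ?_⟩
        · rw [hpx, hqx]; linear_combination h1' + √2 * h3'
        · rw [hpy, hqy]; linear_combination √3 * h3'
      · refine ⟨k', h, fun p hp => ?_⟩
        obtain ⟨i, j, k, hpx, hpy, h1, h2, h3⟩ := hrel p hp
        have h2' : (i : ℝ) * k' = i' * k := by exact_mod_cast h2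
        have h3' : (k : ℝ) * j' = k' * j := by exact_mod_cast h3
        refine ⟨k, ?_, ?_⟩
        · rw [hpx, hqx]; linear_combination h2'
        · rw [hpy, hqy]; linear_combination (-1 : ℝ) * h3'
    obtain ⟨m', hm', hN⟩ := key
    have hm0 : (0 : ℝ) < |(m' : ℝ)| := abs_pos.2 (by exact_mod_cast hm')
    refine ⟨(|q.x| + |q.y|) / |(m' : ℝ)|, by positivity, fun p hp hlt => ?_⟩
    obtain ⟨m, h1, h2⟩ := hN p hp
    have hmz : m = 0 := by
      by_contra hne
      have h3 : (1 : ℝ) ≤ |(m : ℝ)| := by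
        have : 1 ≤ |m| := Int.one_le_abs hne
        exact_mod_cast this
      have h4 : |(m' : ℝ)| * (|p.x| + |p.y|) = |(m : ℝ)| * (|q.x| + |q.y|) := by
        rw [mul_add, mul_add, ← abs_mul, ← abs_mul, ← abs_mul, ← abs_mul, h1, h2]
      rw [lt_div_iff₀ hm0] at hlt
      nlinarith
    rw [hmz] at h1 h2
    have hm'' : (m' : ℝ) ≠ 0 := by exact_mod_cast hm'
    simp only [Int.cast_zero, zero_mul, mul_eq_zero, hm'', false_or] at h1 h2
    exact ⟨h1, h2⟩
  · push Not at hdet
    obtain ⟨p₁, hp₁, p₂, hp₂, hne⟩ := hdet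
    have ha : a ≠ 0 := by
      rintro rfl
      obtain ⟨k, hk⟩ := hA _ (comm_mem hp₁ hp₂)
      rw [mul_zero] at hk
      exact hne hk
    have ha0 : 0 < |a| := abs_pos.2 ha
    set B : ℝ := 1 + |p₁.x| + |p₁.y| + |p₂.x| + |p₂.y| with hB
    have hBpos : 0 < B := by positivity
    refine ⟨|a| / B, by positivity, fun p hp hlt => ?_⟩
    have hsmall : ∀ r : Heis, r ∈ N → |r.x| ≤ B → |r.y| ≤ B → r.x * p.y - p.x * r.y = 0 := by
      intro r hr h1 h2
      obtain ⟨k, hk⟩ := hA _ (comm_mem hr hp)
      rw [hk]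
      have h3 : |r.x * p.y - p.x * r.y| < |a| := by
        rw [lt_div_iff₀ hBpos] at hlt
        calc |r.x * p.y - p.x * r.y| ≤ |r.x * p.y| + |p.x * r.y| := abs_sub _ _
          _ = |r.x| * |p.y| + |p.x| * |r.y| := by rw [abs_mul, abs_mul]
          _ ≤ B * |p.y| + |p.x| * B := by gcongr
          _ = (|p.x| + |p.y|) * B := by ring
          _ < |a| := hlt
      rw [hk, abs_mul] at h3
      have h4 : k = 0 := by
        by_contra hk0
        have h5 : (1 : ℝ) ≤ |(k : ℝ)| := by
          have : 1 ≤ |k| := Int.one_le_abs hk0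
          exact_mod_cast this
        nlinarith
      rw [h4]; simp
    have habs := fun t : ℝ => abs_nonneg t
    have e1 := hsmall p₁ hp₁ (by rw [hB]; linarith [habs p₁.x, habs p₁.y, habs p₂.x, habs p₂.y])
      (by rw [hB]; linarith [habs p₁.x, habs p₁.y, habs p₂.x, habs p₂.y])
    have e2 := hsmall p₂ hp₂ (by rw [hB]; linarith [habs p₁.x, habs p₁.y, habs p₂.x, habs p₂.y])
      (by rw [hB]; linarith [habs p₁.x, habs p₁.y, habs p₂.x, habs p₂.y])
    constructor
    · have : (p₁.x * p₂.y - p₂.x * p₁.y) * p.x = 0 := by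
        linear_combination p₂.x * e1 - p₁.x * e2
      exact (mul_eq_zero.1 this).resolve_left hne
    · have : (p₁.x * p₂.y - p₂.x * p₁.y) * p.y = 0 := by
        linear_combination p₂.y * e1 - p₁.y * e2
      exact (mul_eq_zero.1 this).resolve_left hne

instance : IsTopologicalGroup Heis where
  continuous_mul := by
    have h : Continuous (fun p : Heis × Heis => ((p.1.x + p.2.x, p.1.y + p.2.y,
        p.1.z + p.2.z + p.1.x * p.2.y) : ℝ × ℝ × ℝ)) := by
      have := continuous_x; have := continuous_y; have := continuous_z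
      fun_prop
    exact continuous_mk.comp h
  continuous_inv := by
    have h : Continuous (fun p : Heis => ((-p.x, -p.y, -p.z + p.x * p.y) : ℝ × ℝ × ℝ)) := by
      have := continuous_x; have := continuous_y; have := continuous_z
      fun_prop
    exact continuous_mk.comp h

theorem zm_GG : Zm GG := by
  intro N hN hzd _
  -- the central line in `GG`
  have hmem : ∀ z : ℝ, Heis.mk 0 0 z ∈ GG := fun z => ⟨0, 0, 0, by simp, by simp⟩
  let ψ : ℝ → GG := fun z => ⟨Heis.mk 0 0 z, hmem z⟩
  have hψ : Continuous ψ := by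
    apply Continuous.subtype_mk
    exact continuous_mk.comp (by fun_prop : Continuous (fun z : ℝ => ((0, 0, z) : ℝ × ℝ × ℝ)))
  let A : AddSubgroup ℝ :=
    { carrier := {z | ψ z ∈ N}
      add_mem' := by
        intro s t hs ht
        have : ψ (s + t) = ψ s * ψ t := by
          apply Subtype.ext; apply Heis.ext <;> simp [ψ]
        change ψ (s + t) ∈ N
        rw [this]; exact N.mul_mem hs ht
      zero_mem' := by
        have : ψ 0 = 1 := by
          apply Subtype.ext; apply Heis.ext <;> simp [ψ]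
        change ψ 0 ∈ N
        rw [this]; exact N.one_mem
      neg_mem' := by
        intro s hs
        have : ψ (-s) = (ψ s)⁻¹ := by
          apply Subtype.ext; apply Heis.ext <;> simp [ψ]
        change ψ (-s) ∈ N
        rw [this]; exact N.inv_mem hs }
  have hAclosed : IsClosed (A : Set ℝ) := hN.preimage hψ
  have hcyc : ∃ a : ℝ, A = AddSubgroup.closure {a} := by
    rcases A.dense_or_cyclic with h | h
    · exfalso
      have huniv : (A : Set ℝ) = Set.univ := by
        rw [← hAclosed.closure_eq]; exact h.closure_eq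
      have hall : ∀ z, ψ z ∈ N := fun z => by
        have : z ∈ (A : Set ℝ) := by rw [huniv]; exact Set.mem_univ _
        exact this
      let χ : ℝ → N := fun z => ⟨ψ z, hall z⟩
      have hχ : Continuous χ := hψ.subtype_mk _
      have hne : χ 0 ≠ χ 1 := by
        intro h
        have h1 := congrArg (fun w : N => (w : GG).1.z) h
        simp [χ, ψ] at h1
      obtain ⟨s, hs, h0, hsub⟩ := hzd.exists_subset_of_mem_open (a := χ 0) (u := {χ 1}ᶜ)
        (by simpa using hne) isOpen_compl_singleton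
      have hcl : IsClopen (χ ⁻¹' s) := IsClopen.preimage hs hχ
      rcases isClopen_iff.1 hcl with h | h
      · have : (0 : ℝ) ∈ χ ⁻¹' s := h0
        rw [h] at this; exact this
      · have : (1 : ℝ) ∈ χ ⁻¹' s := by rw [h]; exact Set.mem_univ _
        exact hsub this rfl
    · exact h
  obtain ⟨a, ha⟩ := hcyc
  have hA : ∀ z : ℝ, Heis.mk 0 0 z ∈ N.map GG.subtype → ∃ k : ℤ, z = k * a := by
    rintro z ⟨w, hw, hwz⟩
    have h1 : w = ψ z := Subtype.ext hwz
    have h2 : z ∈ A := by
      change ψ z ∈ N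
      rw [← h1]; exact hw
    rw [ha, AddSubgroup.mem_closure_singleton] at h2
    obtain ⟨k, hk⟩ := h2
    exact ⟨k, by rw [← hk]; simp⟩
  obtain ⟨ε, hε, hdisc⟩ := core (N.map GG.subtype) (by
    rintro p ⟨w, _, rfl⟩
    exact w.2) a hA
  -- a neighbourhood of the identity
  apply discreteTopology_of_isOpen_singleton_one
  have hι : Continuous (fun w : N => ((w : GG) : Heis)) :=
    continuous_subtype_val.comp continuous_subtype_val
  have hU1 : IsOpen {w : N | |((w : GG) : Heis).x| + |((w : GG) : Heis).y| < ε} := by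
    apply isOpen_lt _ continuous_const
    exact ((continuous_x.comp hι).abs).add ((continuous_y.comp hι).abs)
  have hU2 : IsOpen {w : N | |((w : GG) : Heis).z| < |a| + (if a = 0 then 1 else 0)} := by
    apply isOpen_lt _ continuous_const
    exact (continuous_z.comp hι).abs
  have heq : ({1} : Set N) = {w : N | |((w : GG) : Heis).x| + |((w : GG) : Heis).y| < ε} ∩
      {w : N | |((w : GG) : Heis).z| < |a| + (if a = 0 then 1 else 0)} := by
    ext w
    rw [Set.mem_singleton_iff]
    constructor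
    · rintro rfl
      refine ⟨?_, ?_⟩
      · change |(1 : Heis).x| + |(1 : Heis).y| < ε
        simpa using hε
      · change |(1 : Heis).z| < |a| + (if a = 0 then 1 else 0)
        simp only [one_z, abs_zero]
        split_ifs with h
        · rw [h]; simp
        · rw [add_zero]; exact abs_pos.2 h
    · rintro ⟨h1, h2⟩
      have hw : ((w : GG) : Heis) ∈ N.map GG.subtype := ⟨(w : GG), w.2, rfl⟩
      obtain ⟨hx, hy⟩ := hdisc _ hw h1
      have hw2 : ((w : GG) : Heis) = Heis.mk 0 0 ((w : GG) : Heis).z := Heis.ext hx hy rfl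
      obtain ⟨k, hk⟩ := hA _ (hw2 ▸ hw)
      have hz : ((w : GG) : Heis).z = 0 := by
        change |((w : GG) : Heis).z| < |a| + (if a = 0 then 1 else 0) at h2
        by_cases h : a = 0
        · rw [hk, h, mul_zero]
        · rw [if_neg h, add_zero, hk, abs_mul] at h2
          have hk0 : k = 0 := by
            by_contra hne
            have h5 : (1 : ℝ) ≤ |(k : ℝ)| := by
              have : 1 ≤ |k| := Int.one_le_abs hne
              exact_mod_cast this
            have := abs_pos.2 h
            nlinarith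
          rw [hk, hk0]; simp
      apply Subtype.ext
      apply Subtype.ext
      exact Heis.ext hx hy hz
  rw [heq]
  exact hU1.inter hU2

/-- small nonzero elements of `D` -/
theorem small (ε : ℝ) (hε : 0 < ε) : ∃ s t : ℝ, InD s t ∧ s ≠ 0 ∧ |s| < ε ∧ |t| < ε := by
  let u : ℕ → ℝ × ℝ := fun c => (Int.fract ((c : ℝ) * √2), Int.fract ((c : ℝ) * √3))
  have hu : ∀ c, u c ∈ Set.Icc (0 : ℝ) 1 ×ˢ Set.Icc (0 : ℝ) 1 := by
    intro c
    exact ⟨⟨Int.fract_nonneg _, (Int.fract_lt_one _).le⟩, ⟨Int.fract_nonneg _, (Int.fract_lt_one _).le⟩⟩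
  obtain ⟨w, _, φ, hφ, hlim⟩ := (isCompact_Icc.prod isCompact_Icc).tendsto_subseq hu
  have hc := hlim.cauchySeq
  rw [Metric.cauchySeq_iff'] at hc
  obtain ⟨M, hM⟩ := hc ε hε
  have h1 := hM (M + 1) (by omega)
  have hlt : φ M < φ (M + 1) := hφ (by omega)
  set c := φ M
  set c' := φ (M + 1)
  simp only [Function.comp, Prod.dist_eq, max_lt_iff, Real.dist_eq, u] at h1
  refine ⟨Int.fract ((c' : ℝ) * √2) - Int.fract ((c : ℝ) * √2),
    Int.fract ((c' : ℝ) * √3) - Int.fract ((c : ℝ) * √3), ?_, ?_, h1.1, h1.2⟩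
  · refine ⟨⌊(c : ℝ) * √2⌋ - ⌊(c' : ℝ) * √2⌋, ⌊(c : ℝ) * √3⌋ - ⌊(c' : ℝ) * √3⌋, (c' : ℤ) - c, ?_, ?_⟩
    · unfold Int.fract; push_cast; ring
    · unfold Int.fract; push_cast; ring
  · intro h
    have h2 : ((⌊(c : ℝ) * √2⌋ - ⌊(c' : ℝ) * √2⌋ : ℤ) : ℝ) + (((c' : ℤ) - c : ℤ) : ℝ) * √2 +
        ((0 : ℤ) : ℝ) * √3 = 0 := by
      unfold Int.fract at h
      push_cast
      linarith
    have h3 := (indep _ _ _ h2).2.1
    omega

theorem not_closed : ¬ IsClosed (GG : Set Heis) := by
  have h4 : Cardinal.mk (ℕ → Bool) = Cardinal.continuum := by simp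
  intro hcl
  let Dset : Set (ℝ × ℝ) := {p | InD p.1 p.2}
  have hDcl : IsClosed Dset := by
    have : Continuous (fun p : ℝ × ℝ => Heis.mk p.1 p.2 0) :=
      continuous_mk.comp (by fun_prop : Continuous (fun p : ℝ × ℝ => ((p.1, p.2, 0) : ℝ × ℝ × ℝ)))
    exact hcl.preimage this
  have hDco : Dset.Countable := by
    have : Dset ⊆ Set.range (fun v : ℤ × ℤ × ℤ =>
        (((v.1 : ℝ) + v.2.2 * √2, (v.2.1 : ℝ) + v.2.2 * √3) : ℝ × ℝ)) := by
      rintro ⟨s, t⟩ ⟨i, j, k, h1, h2⟩
      exact ⟨(i, j, k), by simp only at h1 h2 ⊢; rw [h1, h2]⟩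
    exact (Set.countable_range _).mono this
  have hperf : Perfect Dset := by
    refine ⟨hDcl, ?_⟩
    intro p hp
    rw [accPt_iff_nhds]
    intro U hU
    obtain ⟨ε, hε, hball⟩ := Metric.mem_nhds_iff.1 hU
    obtain ⟨s, t, hst, hs0, hs, ht⟩ := small ε hε
    refine ⟨(p.1 + s, p.2 + t), ⟨hball ?_, InD.add hp hst⟩, ?_⟩
    · rw [Metric.mem_ball, Prod.dist_eq, max_lt_iff, Real.dist_eq, Real.dist_eq]
      simpa using ⟨hs, ht⟩
    · intro h
      have := congrArg Prod.fst h
      simp at this
      exact hs0 this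
  obtain ⟨f, hf, _, hinj⟩ := hperf.exists_nat_bool_injection ⟨(0, 0), 0, 0, 0, by simp, by simp⟩
  have h1 : (Set.range f).Countable := hDco.mono hf
  have h2 : Countable (ℕ → Bool) := by
    have := h1.to_subtype
    exact (Equiv.ofInjective f hinj).countable_iff.2 this
  have h3 := Cardinal.mk_le_aleph0_iff.2 h2
  rw [h4] at h3
  exact absurd h3 (not_le.2 Cardinal.aleph0_lt_continuum)

/-- There are a (Hausdorff, second countable, real analytic, finite dimensional) Lie group
`K` and a subgroup `G` of `K` that satisfies `Z_m` and is not closed in `K`. -/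
theorem result : ∃ (E : Type) (_ : NormedAddCommGroup E) (_ : NormedSpace ℝ E)
    (_ : FiniteDimensional ℝ E) (K : Type) (_ : TopologicalSpace K) (_ : T2Space K)
    (_ : SecondCountableTopology K) (_ : ChartedSpace E K) (_ : Group K)
    (_ : LieGroup (modelWithCornersSelf ℝ E) ⊤ K) (G : Subgroup K),
      Zm G ∧ ¬ IsClosed (G : Set K) :=
  ⟨ℝ × ℝ × ℝ, inferInstance, inferInstance, inferInstance, Heis, inferInstance, inferInstance,
    inferInstance, inferInstance, inferInstance, inferInstance, GG, zm_GG, not_closed⟩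

end Pool.Agent.Results.MP_3a9d0e_gt.HeisenbergPreimage
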